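import Mathlib

set_option autoImplicit false

/-!
# Cross-Sperner `k`-tuples with a larger product

If `k` is not a central binomial coefficient, then for every `n ≥ l(k)` there is a cross-Sperner
`k`-tuple of families of subsets of `[n]` for which the product of the sizes is at least
`2 * 2 ^ (k (n - l(k)))`.
-/

namespace Pool.Agent.Results.MP_7811f3_co.NotCentralBinomial

open Finset

/-- A cross-Sperner `k`-tuple of families of subsets of `[n]`: no set of a family is contained in
a set of another family (this covers both inclusions). -/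
def CrossSperner {n k : ℕ} (F : Fin k → Finset (Finset (Fin n))) : Prop :=
  ∀ i j, i ≠ j → ∀ A ∈ F i, ∀ B ∈ F j, ¬ A ⊆ B

/-- `l = l(k)`: the least positive integer `l` with `k ≤ binom(l, ⌊l/2⌋)`. -/
def IsL (k l : ℕ) : Prop := IsLeast {l : ℕ | 1 ≤ l ∧ k ≤ l.choose (l / 2)} l

/-- The statement of the question. -/
def Conjecture : Prop :=
  ∀ n k l : ℕ, 1 ≤ n → 2 ≤ k → IsL k l →
    ∀ F : Fin k → Finset (Finset (Fin n)), CrossSperner F →
      ((∏ i, #(F i) : ℕ) : ℝ) ≤ (2 : ℝ) ^ ((k : ℤ) * ((n : ℤ) - (l : ℤ)))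

variable {l m k : ℕ}

/-- The subset of `[l + m]` with given traces. -/
def emb (T : Finset (Fin l)) (U : Finset (Fin m)) : Finset (Fin (l + m)) :=
  T.map (Fin.castAddEmb m) ∪ U.map (Fin.natAddEmb l)

theorem mem_left (T : Finset (Fin l)) (U : Finset (Fin m)) (x : Fin l) :
    Fin.castAdd m x ∈ emb T U ↔ x ∈ T := by
  simp only [emb, mem_union, mem_map, Fin.castAddEmb_apply, Fin.natAddEmb_apply]
  constructor
  · rintro (⟨y, hy, h⟩ | ⟨y, hy, h⟩)
    · rwa [← Fin.castAdd_injective l m h]
    · exfalso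
      have := congrArg Fin.val h
      simp only [Fin.val_natAdd, Fin.val_castAdd] at this
      omega
  · intro h; exact Or.inl ⟨x, h, rfl⟩

theorem mem_right (T : Finset (Fin l)) (U : Finset (Fin m)) (x : Fin m) :
    Fin.natAdd l x ∈ emb T U ↔ x ∈ U := by
  simp only [emb, mem_union, mem_map, Fin.castAddEmb_apply, Fin.natAddEmb_apply]
  constructor
  · rintro (⟨y, hy, h⟩ | ⟨y, hy, h⟩)
    · exfalso
      have := congrArg Fin.val h
      simp only [Fin.val_natAdd, Fin.val_castAdd] at this
      omega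
    · rwa [← Fin.natAdd_injective m l h]
  · intro h; exact Or.inr ⟨x, h, rfl⟩

/-- The middle layer. -/
def M (l : ℕ) : Finset (Finset (Fin l)) := powersetCard (l / 2) univ

theorem card_M : #(M l) = l.choose (l / 2) := by simp [M]

/-- The index of a set of the middle layer. -/
noncomputable def idx (k : ℕ) (hk : 0 < k) (x : {x // x ∈ M l}) : Fin k :=
  ⟨min ((M l).equivFin x).val (k - 1), by omega⟩

/-- The part of the middle layer with a given index. -/
noncomputable def part (k : ℕ) (hk : 0 < k) (i : Fin k) : Finset {x // x ∈ M l} :=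
  univ.filter (fun x => idx k hk x = i)

theorem mem_part (hk : 0 < k) (i : Fin k) (x : {x // x ∈ M l}) :
    x ∈ part k hk i ↔ idx k hk x = i := by
  unfold part
  rw [mem_filter]
  simp

/-- The families. -/
noncomputable def Fam (m k : ℕ) (hk : 0 < k) (i : Fin k) : Finset (Finset (Fin (l + m))) :=
  ((part (l := l) k hk i) ×ˢ (univ : Finset (Finset (Fin m)))).image (fun p => emb p.1.1 p.2)

theorem card_Fam (hk : 0 < k) (i : Fin k) :
    #(Fam (l := l) m k hk i) = #(part (l := l) k hk i) * 2 ^ m := by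
  rw [Fam, card_image_of_injective, card_product]
  · simp
  · rintro ⟨⟨T, hT⟩, U⟩ ⟨⟨T', hT'⟩, U'⟩ h
    dsimp only at h
    have h1 : T = T' := by
      ext x
      rw [← mem_left T U, ← mem_left T' U', h]
    have h2 : U = U' := by
      ext x
      rw [← mem_right T U, ← mem_right T' U', h]
    subst h1 h2
    rfl

theorem cross (hk : 0 < k) : CrossSperner (Fam (l := l) m k hk) := by
  intro i j hij A hA B hB hAB
  simp only [Fam, mem_image, mem_product, mem_univ, and_true] at hA hB
  obtain ⟨⟨⟨T, hT⟩, U⟩, h1, rfl⟩ := hA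
  obtain ⟨⟨⟨T', hT'⟩, U'⟩, h2, rfl⟩ := hB
  have hTT : T ⊆ T' := by
    intro x hx
    rw [← mem_left T' U']
    exact hAB ((mem_left T U x).2 hx)
  have hT1 := (mem_powersetCard.1 hT).2
  have hT2 := (mem_powersetCard.1 hT').2
  have : T = T' := eq_of_subset_of_card_le hTT (by rw [hT1, hT2])
  subst this
  rw [mem_part] at h1 h2
  exact hij (h1.symm.trans h2)

theorem part_pos (hk : 0 < k) (hM : k ≤ #(M l)) (i : Fin k) : 1 ≤ #(part (l := l) k hk i) := by
  rw [Nat.succ_le_iff, card_pos]
  refine ⟨(M l).equivFin.symm ⟨i.val, by omega⟩, ?_⟩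
  rw [mem_part]
  apply Fin.ext
  simp only [idx, Equiv.apply_symm_apply]
  have := i.isLt
  omega

theorem part_last (hk : 0 < k) (hM : k < #(M l)) :
    2 ≤ #(part (l := l) k hk ⟨k - 1, by omega⟩) := by
  have h : ({(M l).equivFin.symm ⟨k - 1, by omega⟩, (M l).equivFin.symm ⟨k, hM⟩} :
      Finset {x // x ∈ M l}) ⊆ part (l := l) k hk ⟨k - 1, by omega⟩ := by
    intro x hx
    simp only [mem_insert, mem_singleton] at hx
    rw [mem_part]
    apply Fin.ext
    rcases hx with rfl | rfl
    · simp only [idx, Equiv.apply_symm_apply]; omega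
    · simp only [idx, Equiv.apply_symm_apply]; omega
  refine le_trans ?_ (card_le_card h)
  rw [card_pair]
  intro h
  have := (M l).equivFin.symm.injective h
  simp only [Fin.mk.injEq] at this
  omega

theorem prod_ge (hk : 0 < k) (hM : k < #(M l)) :
    2 * 2 ^ (k * m) ≤ ∏ i, #(Fam (l := l) m k hk i) := by
  simp only [card_Fam]
  rw [prod_mul_distrib, prod_const, card_univ, Fintype.card_fin, ← pow_mul, mul_comm m k]
  refine Nat.mul_le_mul_right _ ?_
  rw [← mul_prod_erase univ _ (mem_univ (⟨k - 1, by omega⟩ : Fin k))]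
  calc 2 = 2 * 1 := rfl
    _ ≤ _ := Nat.mul_le_mul (part_last hk hM) (Nat.one_le_iff_ne_zero.2
        (prod_ne_zero_iff.2 fun i _ => by have := part_pos hk hM.le i; omega))

/-- **The product bound fails whenever `k` is not a central binomial coefficient.** -/
theorem result :
    (∀ k l n : ℕ, 2 ≤ k → IsL k l → k ≠ l.choose (l / 2) → l ≤ n →
      ∃ F : Fin k → Finset (Finset (Fin n)), CrossSperner F ∧
        2 * 2 ^ (k * (n - l)) ≤ ∏ i, #(F i)) ∧
    ¬ Conjecture := by
  have main : ∀ k l n : ℕ, 2 ≤ k → IsL k l → k ≠ l.choose (l / 2) → l ≤ n →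
      ∃ F : Fin k → Finset (Finset (Fin n)), CrossSperner F ∧
        2 * 2 ^ (k * (n - l)) ≤ ∏ i, #(F i) := by
    intro k l n hk hl hne hn
    obtain ⟨m, rfl⟩ := Nat.exists_eq_add_of_le hn
    have hM : k < #(M l) := by
      rw [card_M]
      exact lt_of_le_of_ne hl.1.2 hne
    refine ⟨Fam (l := l) m k (by omega), cross (by omega), ?_⟩
    rw [Nat.add_sub_cancel_left]
    exact prod_ge (by omega) hM
  refine ⟨main, fun hC => ?_⟩
  have hL : IsL 4 4 := by
    constructor
    · constructor
      · norm_num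
      · decide
    · rintro l ⟨h1, h2⟩
      by_contra hcon
      push Not at hcon
      interval_cases l
      · exact absurd h2 (by decide)
      · exact absurd h2 (by decide)
      · exact absurd h2 (by decide)
  obtain ⟨F, hF, hprod⟩ := main 4 4 4 (by norm_num) hL (by decide) le_rfl
  have := hC 4 4 4 (by norm_num) (by norm_num) hL F hF
  norm_num at this hprod
  have h2 : (2 : ℝ) ≤ ((∏ i, #(F i) : ℕ) : ℝ) := by exact_mod_cast hprod
  push_cast at h2
  linarith

end Pool.Agent.Results.MP_7811f3_co.NotCentralBinomial
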